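import Mathlib

namespace Pool.Agent.H.MP_5c9c6a_an
open Set

variable {n : ℕ}

/-- the Hessian as a bilinear form -/
noncomputable def Hess (f : EuclideanSpace ℝ (Fin n) → ℝ) (x v w : EuclideanSpace ℝ (Fin n)) : ℝ :=
  fderiv ℝ (fderiv ℝ f) x v w

/-- points with positive definite Hessian -/
def HessPos (f : EuclideanSpace ℝ (Fin n) → ℝ) : Set (EuclideanSpace ℝ (Fin n)) :=
  {x | ∀ v, v ≠ 0 → 0 < Hess f x v v}

/-- levels `q ≥ inf f` from which on all truncations are convex -/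
def Lev (f : EuclideanSpace ℝ (Fin n) → ℝ) : Set ℝ :=
  {q | (∀ b, (∀ x, b ≤ f x) → b ≤ q) ∧ ∀ r, q ≤ r → ConvexOn ℝ univ fun x => max r (f x)}

/-- the standing hypotheses (H), with `c = scl f` -/
def Hyp (f : EuclideanSpace ℝ (Fin n) → ℝ) (c : ℝ) : Prop :=
  ContDiff ℝ 2 f ∧ ¬ ConvexOn ℝ univ f ∧ (Lev f).Nonempty ∧
    (∀ p, gradient f p = 0 → ∀ v, (∀ w, Hess f p v w = 0) → v = 0) ∧
    Bornology.IsBounded {p | gradient f p = 0} ∧ Bornology.IsBounded (HessPos f)ᶜ ∧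
    IsGLB (Lev f) c ∧ c ∈ range f ∧ (∀ x, f x = c → gradient f x ≠ 0) ∧ ∀ x, c < f x → x ∈ HessPos f

end Pool.Agent.H.MP_5c9c6a_an
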