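import Mathlib
import Pool.Agent.H.MP_5c9c6a_an.Defs

namespace Pool.Agent.H.MP_5c9c6a_an
open Set Filter Topology

lemma d2_nonpos {g : ℝ → ℝ} {t : ℝ} (h : IsLocalMax g t) (hc : ContinuousAt g t) :
    deriv (deriv g) t ≤ 0 := by
  by_contra k
  have h1 := isLocalMin_of_deriv_deriv_pos (not_le.1 k) h.deriv_eq_zero hc
  have h2 : g =ᶠ[𝓝 t] fun _ => g t := (h.and h1).mono fun s hs => le_antisymm hs.1 hs.2
  exact k (h2.deriv.deriv_eq.trans_le (by simp))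

variable {n : ℕ} {f : EuclideanSpace ℝ (Fin n) → ℝ}

lemma line1 (hf : ContDiff ℝ 2 f) (x v : EuclideanSpace ℝ (Fin n)) (t : ℝ) :
    HasDerivAt (fun s : ℝ => f (x + s • v)) (fderiv ℝ f (x + t • v) v) t := by
  have h := ((hf.differentiable (by norm_num)) _).hasFDerivAt.comp_hasDerivAt t
    (((hasDerivAt_id t).smul_const v).const_add x)
  rw [one_smul] at h
  exact h

lemma line2 (hf : ContDiff ℝ 2 f) (x v : EuclideanSpace ℝ (Fin n)) (t : ℝ) :
    HasDerivAt (fun s : ℝ => fderiv ℝ f (x + s • v) v) (Hess f (x + t • v) v v) t := by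
  have h := (((hf.fderiv_right (m := 1) le_rfl).differentiable (by norm_num)) _).hasFDerivAt.comp_hasDerivAt
    t (((hasDerivAt_id t).smul_const v).const_add x)
  simpa [Hess] using h.clm_apply (hasDerivAt_const t v)

lemma conv (hf : ContDiff ℝ 2 f) {r : ℝ} (h : ∀ x, r < f x → x ∈ HessPos f) :
    ConvexOn ℝ univ fun x => max r (f x) := by
  refine ⟨convex_univ, fun a _ b _ s t hs ht hst => ?_⟩
  obtain rfl : s = 1 - t := by linarith
  have hA := le_max_left r (f a)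
  have hB := le_max_left r (f b)
  have hA' := le_max_right r (f a)
  have hB' := le_max_right r (f b)
  set A := max r (f a)
  set B := max r (f b)
  have hL : ∀ τ ∈ Icc (0 : ℝ) 1, r ≤ A + τ * (B - A) := fun τ hτ => by nlinarith [hτ.1, hτ.2]
  simp only [smul_eq_mul]
  refine max_le (by linarith [hL t ⟨ht, by linarith⟩]) ?_
  let g : ℝ → ℝ := fun τ => f (a + τ • (b - a)) - (A + τ * (B - A))
  have g1 : ∀ τ, HasDerivAt g (fderiv ℝ f (a + τ • (b - a)) (b - a) - (B - A)) τ := fun τ =>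
    (line1 hf a _ τ).sub ((hasDerivAt_mul_const _).const_add A)
  have gc : Continuous g := continuous_iff_continuousAt.2 fun τ => (g1 τ).continuousAt
  obtain ⟨τ, hτ, hm⟩ := isCompact_Icc.exists_isMaxOn ⟨0, left_mem_Icc.2 zero_le_one⟩ gc.continuousOn
  suffices g τ ≤ 0 by
    have e : g t ≤ 0 := (hm ⟨ht, by linarith⟩).trans this
    simp only [g, show a + t • (b - a) = (1 - t) • a + t • b by module] at e
    linarith
  by_contra k
  have k0 : τ ≠ 0 := by rintro rfl; exact k (by simpa [g] using hA')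
  have k1 : τ ≠ 1 := by rintro rfl; exact k (by simpa [g] using hB')
  have hab : b - a ≠ 0 := fun e => k (by
    obtain rfl : b = a := sub_eq_zero.1 e
    simp [g, A, B])
  have h2 := d2_nonpos (hm.isLocalMax (Icc_mem_nhds (hτ.1.lt_of_ne' k0) (hτ.2.lt_of_ne k1)))
    gc.continuousAt
  rw [show deriv g = _ from funext fun τ => (g1 τ).deriv, ((line2 hf a _ τ).sub_const _).deriv] at h2
  exact h2.not_gt (h _ (by simp only [g] at k; linarith [hL τ hτ]) _ hab)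

lemma psd (hf : ContDiff ℝ 2 f) {r : ℝ} (h : ConvexOn ℝ univ fun x => max r (f x))
    {x : EuclideanSpace ℝ (Fin n)} (hx : r < f x) (v : EuclideanSpace ℝ (Fin n)) :
    0 ≤ Hess f x v v := by
  have c1 : ContinuousAt (fun s : ℝ => f (x + s • v)) 0 := (line1 hf x v 0).continuousAt
  obtain ⟨ε, hε, h1⟩ := Metric.eventually_nhds_iff_ball.1
    (c1.eventually (lt_mem_nhds (show r < f (x + (0 : ℝ) • v) by simpa using hx)))
  have h2 : ConvexOn ℝ (Metric.ball 0 ε) fun s : ℝ => f (x + s • v) := by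
    refine ⟨convex_ball _ _, fun a ha b hb s t hs ht hst => ?_⟩
    have := h.2 (mem_univ (x + a • v)) (mem_univ (x + b • v)) hs ht hst
    beta_reduce at this
    rw [max_eq_right (h1 a ha).le, max_eq_right (h1 b hb).le] at this
    refine le_trans (le_of_eq (congrArg f ?_)) ((le_max_right _ _).trans this)
    obtain rfl : s = 1 - t := by linarith
    simp only [smul_eq_mul]; module
  have h3 := h2.monotoneOn_deriv fun s _ => (line1 hf x v s).differentiableAt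
  rw [show deriv _ = _ from funext fun τ => (line1 hf x v τ).deriv] at h3
  have h4 := h3.derivWithin_nonneg (x := 0)
  rw [derivWithin_of_isOpen Metric.isOpen_ball (Metric.mem_ball_self hε), (line2 hf x v 0).deriv] at h4
  simpa using h4

abbrev E2 := EuclideanSpace ℝ (Fin 2)

noncomputable def ff (v : E2) : ℝ :=
  v 0 ^ 4 / 12 + (v 1 ^ 2 - 1) * v 0 ^ 2 / 2 + v 1 ^ 4 / 4 + 3 * v 1 ^ 2 / 2 + 11 * v 1 / 4

lemma ff_c : ContDiff ℝ 2 ff := by unfold ff; fun_prop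

noncomputable abbrev pr (i : Fin 2) : E2 →L[ℝ] ℝ := EuclideanSpace.proj i

lemma ff1 (x : E2) : fderiv ℝ ff x = (x 0 ^ 3 / 3 + (x 1 ^ 2 - 1) * x 0) • pr 0 +
    (x 0 ^ 2 * x 1 + x 1 ^ 3 + 3 * x 1 + 11 / 4) • pr 1 := by
  have h0 := (pr 0).hasFDerivAt (x := x)
  have h1 := (pr 1).hasFDerivAt (x := x)
  have h := ((((((h0.pow 4).mul_const 12⁻¹).add ((((h1.pow 2).sub_const 1).mul (h0.pow 2)).mul_const 2⁻¹)).add
    ((h1.pow 4).mul_const 4⁻¹)).add (((h1.pow 2).const_mul 3).mul_const 2⁻¹)).add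
    ((h1.const_mul 11).mul_const 4⁻¹)).fderiv
  refine Eq.trans h ?_
  ext v
  simp
  ring

lemma ff2 (x v w : E2) : Hess ff x v w = (x 0 ^ 2 + x 1 ^ 2 - 1) * v 0 * w 0 +
    2 * x 0 * x 1 * (v 0 * w 1 + v 1 * w 0) + (x 0 ^ 2 + 3 * x 1 ^ 2 + 3) * v 1 * w 1 := by
  have h0 := (pr 0).hasFDerivAt (x := x)
  have h1 := (pr 1).hasFDerivAt (x := x)
  have h := (((((h0.pow 3).mul_const 3⁻¹).add (((h1.pow 2).sub_const 1).mul h0)).smul_const (pr 0)).add
    (((((((h0.pow 2).mul h1).add (h1.pow 3)).add (h1.const_mul 3)).add_const (11 / 4))).smul_const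
    (pr 1))).fderiv
  rw [Hess, show fderiv ℝ ff = _ from funext ff1]
  refine (congrArg (fun L => L v w) h).trans ?_
  simp
  ring

noncomputable def dt (x : E2) : ℝ := x 0 ^ 4 + 2 * x 0 ^ 2 + 3 * x 1 ^ 4 - 3

lemma ext2 {v w : E2} (h0 : v 0 = w 0) (h1 : v 1 = w 1) : v = w := by
  ext i; fin_cases i; exacts [h0, h1]

lemma neg_dir (x : E2) : ∃ v : E2, v ≠ 0 ∧ Hess ff x v v = (x 0 ^ 2 + 3 * x 1 ^ 2 + 3) * dt x := by
  refine ⟨!₂[x 0 ^ 2 + 3 * x 1 ^ 2 + 3, -(2 * x 0 * x 1)], fun h => ?_, ?_⟩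
  · have : x 0 ^ 2 + 3 * x 1 ^ 2 + 3 = 0 := congrArg (fun v : E2 => v 0) h
    nlinarith [sq_nonneg (x 0), sq_nonneg (x 1)]
  · simp [ff2, dt]; ring

lemma pos_iff (x : E2) : x ∈ HessPos ff ↔ 0 < dt x := by
  have hp : 0 < x 0 ^ 2 + 3 * x 1 ^ 2 + 3 := by positivity
  refine ⟨fun h => ?_, fun h v hv => ?_⟩
  · obtain ⟨v, h1, h2⟩ := neg_dir x
    exact (mul_pos_iff_of_pos_left hp).1 (h2 ▸ h v h1)
  · refine (mul_pos_iff_of_pos_left hp).1 ?_
    have e : (x 0 ^ 2 + 3 * x 1 ^ 2 + 3) * Hess ff x v v =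
        ((x 0 ^ 2 + 3 * x 1 ^ 2 + 3) * v 1 + 2 * x 0 * x 1 * v 0) ^ 2 + dt x * v 0 ^ 2 := by
      rw [ff2, dt]; ring
    rw [e]
    by_cases k : v 0 = 0
    · have : v 1 ≠ 0 := fun k1 => hv (ext2 k k1)
      rw [k]; simp only [mul_zero, add_zero]; positivity
    · positivity

lemma bdd (s : Set E2) (h : ∀ x ∈ s, x 0 ^ 2 ≤ 3 ∧ x 1 ^ 2 ≤ 1) : Bornology.IsBounded s :=
  isBounded_iff_forall_norm_le.2 ⟨2, fun x hx => (pow_le_pow_iff_left₀ (norm_nonneg _) zero_le_two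
    two_ne_zero).1 (by rw [EuclideanSpace.norm_sq_eq]; simp; linarith [(h x hx).1, (h x hx).2])⟩

lemma grad0 (x : E2) : gradient ff x = 0 ↔ x 0 ^ 3 / 3 + (x 1 ^ 2 - 1) * x 0 = 0 ∧
    x 0 ^ 2 * x 1 + x 1 ^ 3 + 3 * x 1 + 11 / 4 = 0 := by
  rw [gradient, LinearIsometryEquiv.map_eq_zero_iff, ff1]
  refine ⟨fun h => ⟨?_, ?_⟩, fun h => by rw [h.1, h.2]; simp⟩
  · simpa using congrArg (fun L : E2 →L[ℝ] ℝ => L !₂[1, 0]) h
  · simpa using congrArg (fun L : E2 →L[ℝ] ℝ => L !₂[0, 1]) h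

lemma crit {x : E2} (h : gradient ff x = 0) : x 0 ^ 2 ≤ 3 ∧ x 1 ^ 2 ≤ 1 ∧ dt x ≠ 0 ∧ ff x < 9 / 2 := by
  obtain ⟨h1, h2⟩ := (grad0 x).1 h
  unfold dt ff
  set a := x 0
  set y := x 1
  by_cases k : a = 0
  · rw [k] at h2 ⊢
    have y1 : -1 < y := by nlinarith [sq_nonneg y, sq_nonneg (y + 1)]
    have y2 : y < 0 := by nlinarith [sq_nonneg y]
    have y3 : y ^ 2 < 1 := by nlinarith
    have y4 : y ^ 4 < 1 := by nlinarith [sq_nonneg y]
    exact ⟨by norm_num, y3.le, by nlinarith, by nlinarith⟩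
  · have e : a ^ 2 = 3 * (1 - y ^ 2) := mul_left_cancel₀ k (by linear_combination 3 * h1)
    have y3 : y ^ 2 ≤ 1 := by nlinarith [sq_nonneg a]
    have e1 : (y + 1 / 2) * (-2 * y ^ 2 + y + 11 / 2) = 0 := by rw [e] at h2; linear_combination h2
    have e2 : y = -1 / 2 := by
      rcases mul_eq_zero.1 e1 with k | k
      · linarith
      · nlinarith
    have e3 : a ^ 4 = (a ^ 2) ^ 2 := by ring
    rw [e3, e, e2]
    norm_num

theorem main : ∃ c, Hyp ff c ∧ ∃ x y, x ≠ y ∧ x ∈ HessPos ff ∩ {x | ff x ≤ c} ∧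
    y ∈ connectedComponentIn (HessPos ff ∩ {x | ff x ≤ c}) x ∧ gradient ff x = gradient ff y := by
  have hb : Bornology.IsBounded {x | dt x ≤ 0} := bdd _ fun x hx => by
    simp only [dt, mem_ofPred_eq] at hx
    constructor <;> nlinarith [sq_nonneg (x 0 ^ 2), sq_nonneg (x 1 ^ 2), sq_nonneg (x 0),
      sq_nonneg (x 1 ^ 2 - 1)]
  have hK : IsCompact {x | dt x ≤ 0} := Metric.isCompact_of_isClosed_isBounded
    (isClosed_le (by unfold dt; fun_prop) continuous_const) hb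
  have m1 : !₂[0, 1] ∈ {x | dt x ≤ 0} := by simp [dt]
  obtain ⟨p, hp, hm⟩ := hK.exists_isMaxOn ⟨_, m1⟩ ff_c.continuous.continuousOn
  have c1 : 9 / 2 ≤ ff p := le_trans (by simp [ff]; norm_num) (hm m1)
  have c2 : ∀ x, ff p < ff x → x ∈ HessPos ff := fun x hx =>
    (pos_iff x).2 (not_le.1 fun k => hx.not_ge (hm k))
  have c3 : ∀ r x, (ConvexOn ℝ univ fun x => max r (ff x)) → r < ff x → 0 ≤ dt x := fun r x h hx => by
    obtain ⟨v, -, h2⟩ := neg_dir x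
    exact (mul_nonneg_iff_of_pos_left (by positivity)).1 (h2 ▸ psd ff_c h hx v)
  have c4 : ff p ∈ Lev ff := ⟨fun b hb => hb p, fun r hr => conv ff_c fun x hx => c2 x (hr.trans_lt hx)⟩
  let γ : ℝ → E2 := fun t => !₂[t, -5 / 4 + t ^ 2 / 3]
  have hγ : γ '' Icc (-3 / 2) (3 / 2) ⊆ HessPos ff ∩ {x | ff x ≤ ff p} := by
    rintro _ ⟨t, ⟨t1, t2⟩, rfl⟩
    have u : t ^ 2 ≤ 9 / 4 := by nlinarith
    have y1 : (-5 / 4 + t ^ 2 / 3) ^ 2 ≤ 25 / 16 := by nlinarith [sq_nonneg t]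
    refine ⟨(pos_iff _).2 ?_, le_trans ?_ c1⟩
    · simp only [dt, γ, Matrix.cons_val_zero, Matrix.cons_val_one]
      nlinarith [sq_nonneg ((-5 / 4 + t ^ 2 / 3) ^ 2 - 1), sq_nonneg (t ^ 2 - 1)]
    · simp only [ff, γ, Matrix.cons_val_zero, Matrix.cons_val_one]
      have y2 : -5 / 4 + t ^ 2 / 3 ≤ 0 := by linarith
      set y := -5 / 4 + t ^ 2 / 3
      nlinarith [sq_nonneg t, sq_nonneg y, mul_le_mul y1 u (sq_nonneg _) (by norm_num),
        mul_le_mul y1 y1 (sq_nonneg _) (by norm_num), mul_le_mul u u (sq_nonneg _) (by norm_num)]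
  refine ⟨ff p, ⟨ff_c, fun h => ?_, ⟨_, c4⟩, fun q hq v hv => ?_,
    bdd _ fun x hx => ⟨(crit hx).1, (crit hx).2.1⟩, hb.subset fun x hx => not_lt.1 (mt (pos_iff x).2 hx),
    IsLeast.isGLB ⟨c4, fun q hq => not_lt.1 fun k => ?_⟩, ⟨p, rfl⟩,
    fun x hx h => (hx ▸ (crit h).2.2.2).not_ge c1, c2⟩, γ (-3 / 2), γ (3 / 2), fun h => ?_,
    hγ ⟨_, by norm_num, rfl⟩, ((isPreconnected_Icc.image γ (by fun_prop)).subset_connectedComponentIn
      ⟨_, by norm_num, rfl⟩ hγ) ⟨_, by norm_num, rfl⟩, ?_⟩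
  · have := c3 (-1) 0 ((convexOn_const _ convex_univ).sup h) (by simp [ff])
    norm_num [dt] at this
  · have h0 := hv !₂[1, 0]
    have h1 := hv !₂[0, 1]
    have hd := (crit hq).2.2.1
    simp only [ff2, Matrix.cons_val_zero, Matrix.cons_val_one] at h0 h1
    refine ext2 (mul_left_cancel₀ hd ?_) (mul_left_cancel₀ hd ?_)
    · simp only [dt, PiLp.zero_apply]
      linear_combination (q 0 ^ 2 + 3 * q 1 ^ 2 + 3) * h0 - 2 * q 0 * q 1 * h1
    · simp only [dt, PiLp.zero_apply]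
      linear_combination (q 0 ^ 2 + q 1 ^ 2 - 1) * h1 - 2 * q 0 * q 1 * h0
  · have t1 : ContinuousAt (fun l : ℝ => ff (l • p)) 1 := (ff_c.continuous.comp (by fun_prop)).continuousAt
    obtain ⟨l, l1, l2⟩ := (((t1.eventually (lt_mem_nhds (show q < ff ((1 : ℝ) • p) by
      rwa [one_smul]))).filter_mono nhdsWithin_le_nhds).and (Ioo_mem_nhdsLT zero_lt_one)).exists
    have := c3 q _ (hq.2 q le_rfl) l1
    simp only [dt, mem_ofPred_eq, PiLp.smul_apply, smul_eq_mul, mul_pow] at this hp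
    have l3 : l ^ 2 < 1 := by nlinarith [l2.1, l2.2]
    have l4 : l ^ 4 ≤ l ^ 2 := by nlinarith [sq_nonneg l]
    nlinarith [mul_le_mul_of_nonneg_right l4 (show 0 ≤ p 0 ^ 4 by positivity),
      mul_le_mul_of_nonneg_right l4 (show 0 ≤ p 1 ^ 4 by positivity),
      mul_le_mul_of_nonneg_left hp (sq_nonneg l)]
  · have : (-3 / 2 : ℝ) = 3 / 2 := congrArg (fun v : E2 => v 0) h
    norm_num at this
  · rw [(grad0 _).2 (by simp [γ]; norm_num), (grad0 _).2 (by simp [γ]; norm_num)]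

end Pool.Agent.H.MP_5c9c6a_an
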